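import Pool.Agent.N550.PS.Stm
import Pool.Agent.N550.SH.Fin

/-!
# Project PS: the assembly
-/

set_option autoImplicit false

open Set Filter Topology Metric Function MeasureTheory
open scoped Manifold ContDiff

noncomputable section

namespace Pool.Agent.L7h82.PS

open Pool.Agent.Y522 Pool.Agent.N550.SH Pool.Agent.N550.KH Pool.Agent.N550.PS

/-! ### The fibre minus a point is a cell -/

/-- A closed manifold with a smooth homeomorphism onto a sphere is a cell off any point. -/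
theorem cell_of_homeo (m : ℕ) (Y : Type) [TopologicalSpace Y] [ChartedSpace (E m) Y]
    [IsManifold (𝓡 m) ∞ Y] (φ : Y ≃ₜ Sp m) (hφ : ContMDiff (𝓡 m) (𝓡 m) ∞ φ) (b : Sp m) :
    ∃ c : E m → Y, Injective c ∧ (∀ z, LD m c z) ∧ range c = {y | φ y ≠ b} := by
  set e : OpenPartialHomeomorph Y (E m) := φ.toOpenPartialHomeomorph ≫ₕ (ste m b) with he
  have hsrc : e.source = {y | φ y ≠ b} := by
    ext x
    simp [he, ste_source]
  have htgt : e.target = univ := by
    rw [he]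
    ext y
    simp [ste_target]
  have hex : ∀ x, e x = ste m b (φ x) := fun x => rfl
  set U : TopologicalSpace.Opens Y := ⟨e.source, e.open_source⟩ with hU
  let H : U ≃ₜ E m :=
    { toFun := fun x => e x
      invFun := fun y => ⟨e.symm y, e.map_target (by rw [htgt]; trivial)⟩
      left_inv := fun x => Subtype.ext (e.left_inv x.2)
      right_inv := fun y => e.right_inv (by rw [htgt]; trivial)
      continuous_toFun := continuousOn_iff_continuous_domRestrict.1 e.continuousOn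
      continuous_invFun := by
        refine Continuous.subtype_mk ?_ _
        rw [← continuousOn_univ, ← htgt]
        exact e.continuousOn_symm }
  have hHx : ∀ x : U, H x = ste m b (φ x) := fun x => rfl
  have hsm : ∀ x : U, ContMDiffAt (𝓡 m) (𝓡 m) ∞ H x := by
    intro x
    have hx : φ x ≠ b := by
      have h1 : (x : Y) ∈ e.source := x.2
      rwa [hsrc] at h1
    have h1 : ContMDiffAt (𝓡 m) (𝓡 m) ∞ (fun y : Y => ste m b (φ y)) x :=
      ContMDiffAt.comp (g := ste m b) (x : Y) (ste_smooth m b _ hx) (hφ x)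
    exact ContMDiffAt.comp (g := fun y : Y => ste m b (φ y)) x h1 (ld_opens U x).contMDiffAt
  obtain ⟨Φ⟩ := open_version m U H (by
    have h1 : {x | ¬ ∀ᶠ y in 𝓝 x, ContMDiffAt (𝓡 m) (𝓡 m) ∞ H y} = ∅ := by
      rw [eq_empty_iff_forall_notMem]
      intro x hx
      exact hx (Eventually.of_forall hsm)
    rw [h1, image_empty, measure_empty])
  refine ⟨fun y => (Φ.symm y : Y), Subtype.val_injective.comp Φ.symm.injective, fun z => ?_, ?_⟩
  · exact LD.comp_fun (ld_opens U (Φ.symm z)) (Φ.symm.isLocalDiffeomorph z)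
  · have h1 : (fun y => ((Φ.symm y : U) : Y)) = Subtype.val ∘ Φ.symm := rfl
    have h2 : range (Φ.symm : E m → U) = univ :=
      Set.eq_univ_of_forall fun y => ⟨Φ y, Φ.symm_apply_apply y⟩
    rw [h1, range_comp, h2, image_univ, Subtype.range_val, ← hsrc]
    rfl

/-! ### Tools -/

theorem nearS_congr {n k : ℕ} {M : Type} [TopologicalSpace M] [ChartedSpace (E n) M]
    {p p' : M → Sp k} {W : Set M} (hW : IsOpen W) (h : ∀ x ∈ W, p' x = p x) {x : M} (hx : x ∈ W)
    (hs : NearS (n := n) p x) : NearS (n := n) p' x := by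
  have h1 : ∀ᶠ y in 𝓝 x, ContMDiffAt (𝓡 n) (𝓡 k) ∞ p y := hs
  show ∀ᶠ y in 𝓝 x, ContMDiffAt (𝓡 n) (𝓡 k) ∞ p' y
  filter_upwards [h1, hW.mem_nhds hx] with y hy hyW
  exact hy.congr_of_eventuallyEq (by filter_upwards [hW.mem_nhds hyW] with z hz using h z hz)

theorem isHomeo_prod {M : Type} [TopologicalSpace M] {k l : ℕ} {p : M → Sp k} {q : M → Sp l}
    (h : IsHomeomorph (fun x => (p x, q x))) : Continuous p ∧ Continuous q :=
  ⟨continuous_fst.comp h.continuous, continuous_snd.comp h.continuous⟩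

/-- the homeomorphism given by two maps -/
def hm {M : Type} [TopologicalSpace M] {k l : ℕ} {p : M → Sp k} {q : M → Sp l}
    (h : IsHomeomorph (fun x => (p x, q x))) : M ≃ₜ Sp k × Sp l := IsHomeomorph.homeomorph _ h

theorem hm_symm {M : Type} [TopologicalSpace M] {k l : ℕ} {p : M → Sp k} {q : M → Sp l}
    (h : IsHomeomorph (fun x => (p x, q x))) (z : Sp k × Sp l) :
    p ((hm h).symm z) = z.1 ∧ q ((hm h).symm z) = z.2 := by
  have h1 : hm h ((hm h).symm z) = z := (hm h).apply_symm_apply _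
  exact ⟨congrArg Prod.fst h1, congrArg Prod.snd h1⟩

/-- the fibre is homeomorphic to the sphere -/
def fib {M : Type} [TopologicalSpace M] {k l : ℕ} {p : M → Sp k} {q : M → Sp l}
    (h : IsHomeomorph (fun x => (p x, q x))) (a : Sp k) : {x : M // p x = a} ≃ₜ Sp l where
  toFun y := q y
  invFun s := ⟨(hm h).symm (a, s), (hm_symm h (a, s)).1⟩
  left_inv y := by
    apply Subtype.ext
    show (hm h).symm (a, q y) = y
    rw [Homeomorph.symm_apply_eq]
    show (a, q (y : M)) = (p y, q y)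
    rw [y.2]
  right_inv s := (hm_symm h (a, s)).2
  continuous_toFun := (isHomeo_prod h).2.comp continuous_subtype_val
  continuous_invFun := by
    refine Continuous.subtype_mk ?_ _
    exact (hm h).symm.continuous.comp (continuous_const.prodMk continuous_id)

theorem ste_symm_range (k : ℕ) (a : Sp k) : range (ste k a).symm = {u | u ≠ a} := by
  ext u
  constructor
  · rintro ⟨z, rfl⟩
    have h := (ste k a).map_target (x := z) (by rw [ste_target]; trivial)
    rw [ste_source] at h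
    exact h
  · intro hu
    refine ⟨ste k a u, (ste k a).left_inv ?_⟩
    rw [ste_source]
    exact hu

theorem ste_symm_inj (k : ℕ) (a : Sp k) : Injective (ste k a).symm := by
  intro z w h
  have h1 : ∀ z, ste k a ((ste k a).symm z) = z := fun z =>
    (ste k a).right_inv (by rw [ste_target]; trivial)
  rw [← h1 z, h, h1 w]

theorem ste_symm_sm (k : ℕ) (a : Sp k) (z : E k) :
    ContMDiffAt (𝓡 k) (𝓡 k) ∞ (ste k a).symm z := by
  have := Fact.mk (@finrank_euclideanSpace_fin ℝ _ (k + 1))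
  have h := contMDiffOn_symm_of_mem_maximalAtlas (e := ste k a) (n := ∞) (I := 𝓡 k)
    (IsManifold.subset_maximalAtlas ⟨a, rfl⟩)
  refine (h z ?_).contMDiffAt ((ste k a).open_target.mem_nhds ?_)
  · rw [ste_target]; trivial
  · rw [ste_target]; trivial

/-- derivatives of maps with a smooth left inverse are injective -/
theorem inj_of_left_inv {m n : ℕ} {X Z : Type} [TopologicalSpace X] [ChartedSpace (E m) X]
    [TopologicalSpace Z] [ChartedSpace (E n) Z] {f : X → Z} {g : Z → X}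
    {x : X} (hf : MDifferentiableAt (𝓡 m) (𝓡 n) f x) (hg : MDifferentiableAt (𝓡 n) (𝓡 m) g (f x))
    (h : ∀ᶠ y in 𝓝 x, g (f y) = y) : Injective (mfderiv (𝓡 m) (𝓡 n) f x) := by
  have h1 : mfderiv (𝓡 m) (𝓡 m) (fun y => g (f y)) x =
      (mfderiv (𝓡 n) (𝓡 m) g (f x)).comp (mfderiv (𝓡 m) (𝓡 n) f x) := mfderiv_comp x hg hf
  have h2 : mfderiv (𝓡 m) (𝓡 m) (fun y => g (f y)) x = mfderiv (𝓡 m) (𝓡 m) id x :=
    Filter.EventuallyEq.mfderiv_eq (by filter_upwards [h] with y hy using hy)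
  rw [mfderiv_id] at h2
  intro v w hvw
  have h3 : ∀ v, mfderiv (𝓡 n) (𝓡 m) g (f x) (mfderiv (𝓡 m) (𝓡 n) f x v) = v := by
    intro v
    have h4 := congrArg (fun A => A v) (h1.symm.trans h2)
    exact h4
  rw [← h3 v, hvw, h3 w]

/-! ### The assembly -/

section

variable {m : ℕ} {M Y : Type} [TopologicalSpace M]

theorem gX_inj {p : M → Sp 1} {q : M → Sp m} {π : M → Y} {j : Y → M} {a : Sp 1} {b : Sp m}
    (h : IsHomeomorph (fun x => (p x, q x))) (hj : range j = {x | p x = a})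
    (h1 : ∀ y, π (j y) = y) : InjOn (fun x => (p x, π x)) {x | p x = a ∨ q x = b} := by
  have hinj : ∀ x y, p x = p y → q x = q y → x = y := fun x y h2 h3 =>
    h.injective (Prod.ext h2 h3)
  intro x hx y hy hxy
  have h2 : p x = p y := congrArg Prod.fst hxy
  have h3 : π x = π y := congrArg Prod.snd hxy
  by_cases ha : p x = a
  · have hx' : x ∈ range j := by rw [hj]; exact ha
    have hy' : y ∈ range j := by rw [hj]; exact h2.symm.trans ha
    obtain ⟨u, rfl⟩ := hx'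
    obtain ⟨v, rfl⟩ := hy'
    rw [h1, h1] at h3
    rw [h3]
  · have hxb : q x = b := hx.resolve_left ha
    have hyb : q y = b := hy.resolve_left fun h => ha (h2.trans h)
    exact hinj x y h2 (hxb.trans hyb.symm)

theorem gX_image {p : M → Sp 1} {q : M → Sp m} {π : M → Y} {j : Y → M} {a : Sp 1} {b : Sp m}
    (h : IsHomeomorph (fun x => (p x, q x))) (hji : Injective j) (hj : range j = {x | p x = a})
    (h1 : ∀ y, π (j y) = y) (h2 : ∀ x, q x = b → q (j (π x)) = b) :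
    (fun x => (p x, π x)) '' {x | p x = a ∨ q x = b} = {z | z.1 = a ∨ q (j z.2) = b} := by
  have hinj : ∀ x y, p x = p y → q x = q y → x = y := fun x y h2 h3 =>
    h.injective (Prod.ext h2 h3)
  have hpj : ∀ y, p (j y) = a := fun y => by
    have h3 : j y ∈ range j := ⟨y, rfl⟩
    rw [hj] at h3
    exact h3
  ext ⟨s, y⟩
  constructor
  · rintro ⟨x, hx, hxy⟩
    have h3 : p x = s := congrArg Prod.fst hxy
    have h4 : π x = y := congrArg Prod.snd hxy
    rcases hx with hx | hx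
    · left
      exact h3.symm.trans hx
    · right
      show q (j y) = b
      rw [← h4]
      exact h2 x hx
  · rintro (hs | hy)
    · have hs' : s = a := hs
      refine ⟨j y, Or.inl (hpj y), ?_⟩
      show (p (j y), π (j y)) = (s, y)
      rw [h1, hpj, hs']
    · obtain ⟨x, hx⟩ := h.surjective (s, b)
      have h3 : p x = s := congrArg Prod.fst hx
      have h4 : q x = b := congrArg Prod.snd hx
      refine ⟨x, Or.inr h4, ?_⟩
      show (p x, π x) = (s, y)
      rw [h3]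
      have h5 : q (j (π x)) = q (j y) := (h2 x h4).trans (show q (j y) = b from hy).symm
      have h6 : j (π x) = j y := hinj _ _ ((hpj _).trans (hpj _).symm) h5
      rw [hji h6]

end

/-- the linear parametrization of a product of cells -/
theorem cell_prod (Y : Type) [TopologicalSpace Y] [ChartedSpace (E 3) Y]
    [IsManifold (𝓡 3) ∞ Y] (a : Sp 1) (cY : E 3 → Y) (hc : ∀ z, LD 3 cY z) (x : E (3 + 1)) :
    NearS (n := 3 + 1) (fun z : E (3 + 1) => (ste 1 a).symm (up 1 3 z)) x ∧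
    (∀ᶠ y in 𝓝 x, ContMDiffAt (𝓡 (3 + 1)) (𝓡 3) ∞ (fun z : E (3 + 1) => cY (vp 1 3 z)) y) ∧
    ∀ v : TangentSpace (𝓡 (3 + 1)) x,
      mfderiv (𝓡 (3 + 1)) (𝓡 1) (fun z : E (3 + 1) => (ste 1 a).symm (up 1 3 z)) x v = 0 →
      mfderiv (𝓡 (3 + 1)) (𝓡 3) (fun z : E (3 + 1) => cY (vp 1 3 z)) x v = 0 → v = 0 := by
  have hu : ∀ x, ContMDiffAt (𝓡 (3 + 1)) (𝓡 1) ∞ (up 1 3 : E (3 + 1) → E 1) x := fun x =>
    (up 1 3).contDiff.contMDiff.contMDiffAt
  have hv : ∀ x, ContMDiffAt (𝓡 (3 + 1)) (𝓡 3) ∞ (vp 1 3 : E (3 + 1) → E 3) x := fun x =>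
    (vp 1 3).contDiff.contMDiff.contMDiffAt
  refine ⟨Eventually.of_forall fun y => ?_, Eventually.of_forall fun y => ?_, fun v h1 h2 => ?_⟩
  · exact ContMDiffAt.comp (g := (ste 1 a).symm) y (ste_symm_sm 1 a _) (hu y)
  · exact ContMDiffAt.comp (g := cY) y (hc _).contMDiffAt (hv y)
  · have e1 : mfderiv (𝓡 (3 + 1)) (𝓡 1) (fun z : E (3 + 1) => (ste 1 a).symm (up 1 3 z)) x =
        (mfderiv (𝓡 1) (𝓡 1) (ste 1 a).symm (up 1 3 x)).comp
          (mfderiv (𝓡 (3 + 1)) (𝓡 1) (up 1 3 : E (3 + 1) → E 1) x) :=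
      mfderiv_comp x ((ste_symm_sm 1 a _).mdifferentiableAt (by simp))
        ((hu x).mdifferentiableAt (by simp))
    have e2 : mfderiv (𝓡 (3 + 1)) (𝓡 3) (fun z : E (3 + 1) => cY (vp 1 3 z)) x =
        (mfderiv (𝓡 3) (𝓡 3) cY (vp 1 3 x)).comp
          (mfderiv (𝓡 (3 + 1)) (𝓡 3) (vp 1 3 : E (3 + 1) → E 3) x) :=
      mfderiv_comp x ((hc _).contMDiffAt.mdifferentiableAt (by simp))
        ((hv x).mdifferentiableAt (by simp))
    have i1 : Injective (mfderiv (𝓡 1) (𝓡 1) (ste 1 a).symm (up 1 3 x)) := by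
      refine inj_of_left_inv (g := ste 1 a) ((ste_symm_sm 1 a _).mdifferentiableAt (by simp)) ?_ ?_
      · refine (ste_smooth 1 a _ ?_).mdifferentiableAt (by simp)
        have h3 : (ste 1 a).symm (up 1 3 x) ∈ range (ste 1 a).symm := ⟨_, rfl⟩
        rw [ste_symm_range] at h3
        exact h3
      · exact Eventually.of_forall fun z => (ste 1 a).right_inv (by rw [ste_target]; trivial)
    have i2 : Injective (mfderiv (𝓡 3) (𝓡 3) cY (vp 1 3 x)) := (hc _).mfderiv_injective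
    have e3 : mfderiv (𝓡 (3 + 1)) (𝓡 1) (up 1 3 : E (3 + 1) → E 1) x = up 1 3 := by
      rw [mfderiv_eq_fderiv]
      exact (up 1 3).fderiv
    have e4 : mfderiv (𝓡 (3 + 1)) (𝓡 3) (vp 1 3 : E (3 + 1) → E 3) x = vp 1 3 := by
      rw [mfderiv_eq_fderiv]
      exact (vp 1 3).fderiv
    rw [e1] at h1
    rw [e2] at h2
    have h3 : mfderiv (𝓡 (3 + 1)) (𝓡 1) (up 1 3 : E (3 + 1) → E 1) x v = 0 := by
      apply i1
      rw [map_zero]
      exact h1
    have h4 : mfderiv (𝓡 (3 + 1)) (𝓡 3) (vp 1 3 : E (3 + 1) → E 3) x v = 0 := by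
      apply i2
      rw [map_zero]
      exact h2
    rw [e3] at h3
    rw [e4] at h4
    have h5 : (v : E (1 + 3)) = jn 1 3 (up 1 3 v) (vp 1 3 v) := (jn_up_vp 1 3 v).symm
    have h6 : up 1 3 v = 0 := h3
    have h7 : vp 1 3 v = 0 := h4
    rw [h6, h7] at h5
    have h8 : jn 1 3 (0 : E 1) (0 : E 3) = 0 := by
      have := jn_up_vp 1 3 (0 : E (1 + 3))
      rwa [map_zero, map_zero] at this
    rw [h8] at h5
    exact h5

/-- **The assembly.** -/
theorem s_FIN (hGEN : S_GEN) (hCIR : S_CIR) (hFIB : S_FIB) (hPI : S_PI) (hPR : S_PR)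
    (hMOV : S_MOV) (hASM : S_ASM) : Pool.Agent.N550.PS.S_FIN := by
  intro M _ _ _ p₀ q₀ h₀ hN₀
  obtain ⟨a, b, P, Q, hPo, hQo, haP, hbQ, hpa, hqb, hTr⟩ :=
    hGEN 1 3 4 M p₀ q₀ rfl one_pos (by norm_num) h₀ hN₀
  have : T2Space M := (hm h₀).symm.t2Space
  have : CompactSpace M := (hm h₀).symm.compactSpace
  obtain ⟨p, q, P', h, hN, hP'o, haP', hpq, hpa', hTr'⟩ :=
    hCIR 3 M p₀ q₀ a b P (by norm_num) h₀ hN₀ hPo haP hqb (fun x hx hxP => hTr x hxP (hx ▸ hbQ))
  obtain ⟨hpc, hqc⟩ := isHomeo_prod h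
  obtain ⟨hp₀c, hq₀c⟩ := isHomeo_prod h₀
  have hWo : IsOpen (p₀ ⁻¹' P') := hP'o.preimage hp₀c
  -- the fibre over `a`
  have hfa : ∀ x, p x = a → NearS (n := 4) p x ∧ NearS (n := 4) q x ∧
      Surjective (mfderiv (𝓡 4) (𝓡 1) p x) := by
    intro x hx
    have hx0 : p₀ x = a := (hpa' x).1 hx
    have hxW : x ∈ p₀ ⁻¹' P' := by
      show p₀ x ∈ P'
      rw [hx0]
      exact haP'
    obtain ⟨h1, h2, h3⟩ := hpa x hx0
    refine ⟨nearS_congr hWo (fun y hy => (hpq y hy).1) hxW h1,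
      nearS_congr hWo (fun y hy => (hpq y hy).2) hxW h2, ?_⟩
    have h4 : mfderiv (𝓡 4) (𝓡 1) p x = mfderiv (𝓡 4) (𝓡 1) p₀ x :=
      Filter.EventuallyEq.mfderiv_eq (by
        filter_upwards [hWo.mem_nhds hxW] with y hy using (hpq y hy).1)
    rw [h4]
    exact h3
  obtain ⟨cs, hmf, hj1, hj2, hj3⟩ := hFIB 3 M p a hpc (fun x hx => ⟨(hfa x hx).1, (hfa x hx).2.2⟩)
  let Y : Type := {x : M // p x = a}
  let j : Y → M := Subtype.val
  have hji : Injective j := Subtype.val_injective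
  have hjr : range j = {x | p x = a} := Subtype.range_val
  have : CompactSpace Y := by
    have h1 : IsCompact {x | p x = a} := (isClosed_eq hpc continuous_const).isCompact
    exact isCompact_iff_compactSpace.1 h1
  have : T2Space Y := inferInstance
  let φ : Y ≃ₜ Sp 3 := fib h a
  have hφ : ContMDiff (𝓡 3) (𝓡 3) ∞ φ := by
    intro y
    have h1 : ContMDiffAt (𝓡 4) (𝓡 3) ∞ q (j y) :=
      Filter.Eventually.self_of_nhds (hfa (j y) y.2).2.1
    exact ContMDiffAt.comp (g := q) y h1 (hj1 y)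
  obtain ⟨cY, hcYi, hcYd, hcYr⟩ := cell_of_homeo 3 Y φ hφ b
  obtain ⟨π, hπ1, hπ2, hπ3⟩ := hPI 3 M Y j p q a b cY (by norm_num) h
    (fun x hx => by
      rcases hx with hx | hx
      · exact ⟨(hfa x hx).1, (hfa x hx).2.1⟩
      · exact ⟨(hTr' x hx).1, (hTr' x hx).2.1⟩)
    hTr' hji hj1 hj2 hjr hj3 hcYi hcYd hcYr
  obtain ⟨cs2, hA, hB⟩ := hPR 3 Y
  obtain ⟨c', hc'i, hc'r, hc'd⟩ := Pool.Agent.N550.SH.cell (k := 1) (l := 3) (n := 4) rfl p q h hN a b
  let X' : Set M := {x | p x = a ∨ q x = b}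
  let X : Set (Sp 1 × Y) := {z | z.1 = a ∨ q (j z.2) = b}
  let c : E 4 → Sp 1 × Y := fun z => ((ste 1 a).symm (up 1 3 z), cY (vp 1 3 z))
  have hgood : ∀ x ∈ X', LD 4 (fun y => (p y, π y)) x := by
    intro x hx
    refine hA M p π x ?_ (hπ3 x hx).1 (hπ3 x hx).2
    rcases hx with hx | hx
    · exact (hfa x hx).1
    · exact (hTr' x hx).1
  have hcd : ∀ z, LD 4 c z := fun z => by
    obtain ⟨h1, h2, h3⟩ := cell_prod Y a cY hcYd z
    exact hA (E 4) (fun z => (ste 1 a).symm (up 1 3 z)) (fun z => cY (vp 1 3 z)) z h1 h2 h3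
  have hci : Injective c := by
    intro z w hzw
    have h1 := ste_symm_inj 1 a (congrArg Prod.fst hzw)
    have h2 := hcYi (congrArg Prod.snd hzw)
    rw [← jn_up_vp 1 3 z, ← jn_up_vp 1 3 w, h1, h2]
  have hcr : range c = Xᶜ := by
    ext ⟨s, y⟩
    constructor
    · rintro ⟨z, hz⟩
      have h1 : (ste 1 a).symm (up 1 3 z) = s := congrArg Prod.fst hz
      have h2 : cY (vp 1 3 z) = y := congrArg Prod.snd hz
      have h3 : s ∈ range (ste 1 a).symm := ⟨_, h1⟩
      have h4 : y ∈ range cY := ⟨_, h2⟩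
      rw [ste_symm_range] at h3
      rw [hcYr] at h4
      rintro (h5 | h5)
      · exact h3 h5
      · exact h4 h5
    · intro hz
      have h3 : s ∈ range (ste 1 a).symm := by
        rw [ste_symm_range]
        exact fun h => hz (Or.inl h)
      have h4 : y ∈ range cY := by
        rw [hcYr]
        exact fun h => hz (Or.inr h)
      obtain ⟨u, hu⟩ := h3
      obtain ⟨v, hv⟩ := h4
      refine ⟨jn 1 3 u v, ?_⟩
      show ((ste 1 a).symm (up 1 3 (jn 1 3 u v)), cY (vp 1 3 (jn 1 3 u v))) = (s, y)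
      rw [up_jn, vp_jn, hu, hv]
  have hne : X'.Nonempty := by
    obtain ⟨x, hx⟩ := h.surjective (a, b)
    exact ⟨x, Or.inl (congrArg Prod.fst hx)⟩
  have hc'r2 : range c' = X'ᶜ := by
    rw [hc'r]
    ext x
    simp only [X', mem_compl_iff, mem_ofPred_eq, not_or, ne_eq]
  obtain ⟨G, x₀, hG⟩ := hASM 4 M (Sp 1 × Y) X' X c' c (fun x => (p x, π x)) (by norm_num) hne hc'i
    hc'd hc'r2 hci hcd hcr hgood (gX_inj h hjr hπ1) (gX_image h hji hjr hπ1 hπ2)
  refine ⟨Y, inferInstance, cs, hmf, G, x₀, fun x hx => hB M G x (hG x hx), fun y₀ => ?_⟩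
  refine hMOV 3 Y cY (φ.symm b) (by norm_num) hcYi hcYd ?_ y₀
  rw [hcYr]
  ext y
  show φ y ≠ b ↔ y ≠ φ.symm b
  rw [ne_eq, ne_eq, φ.eq_symm_apply]

end Pool.Agent.L7h82.PS
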