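import Pool.Agent.L7h82.PS.Asm
import Pool.Agent.N550.KH.Reg

/-!
# Project PS: generic fibres
-/

set_option autoImplicit false

open Set Filter Topology Metric Function MeasureTheory
open scoped Manifold ContDiff

noncomputable section

namespace Pool.Agent.L7h82.PS

open Pool.Agent.Y522 Pool.Agent.N550.SH Pool.Agent.N550.KH Pool.Agent.N550.PS

theorem reg_n (hR : S_REG) {m k n : ℕ} (hn : m + k = n) (X : Type) [TopologicalSpace X]
    [SecondCountableTopology X] [ChartedSpace (E n) X] [IsManifold (𝓡 n) ∞ X] (p : X → E k)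
    (G : Set X) (hk : 0 < k) (hG : IsOpen G) (hp : ∀ x ∈ G, ContMDiffAt (𝓡 n) (𝓡 k) ∞ p x)
    (hnull : ∀ j : Fin k, volume ((fun x => p x j) '' Gᶜ) = 0) (O : Set (E k)) (hO : IsOpen O)
    (hne : O.Nonempty) :
    ∃ a ∈ O, ∀ x, p x = a → x ∈ G ∧ Surjective (mfderiv (𝓡 n) (𝓡 k) p x) := by
  subst hn
  exact hR m k X p G hk hG hp hnull O hO hne

/-- regular values of maps to spheres -/
theorem reg_sphere (hR : S_REG) {m k n : ℕ} (hn : m + k = n) (M : Type) [TopologicalSpace M]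
    [SecondCountableTopology M] [ChartedSpace (E n) M] [IsManifold (𝓡 n) ∞ M] (p : M → Sp k)
    (hpc : Continuous p) (G : Set M) (hk : 0 < k) (hG : IsOpen G)
    (hp : ∀ x ∈ G, ContMDiffAt (𝓡 n) (𝓡 k) ∞ p x)
    (hB : Measure.hausdorffMeasure 1 (p '' Gᶜ) = 0) (O : Set (Sp k)) (hO : IsOpen O)
    (hne : O.Nonempty) :
    ∃ a ∈ O, ∀ x, p x = a → x ∈ G ∧ Surjective (mfderiv (𝓡 n) (𝓡 k) p x) := by
  obtain ⟨a₀, ha₀⟩ := hne
  obtain ⟨N, hN⟩ : ∃ N : Sp k, N = -a₀ := ⟨_, rfl⟩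
  have hNa : a₀ ≠ N := by
    rw [hN]
    exact ne_neg_of_mem_unit_sphere ℝ a₀
  have hleft : ∀ u, u ≠ N → (ste k N).symm (ste k N u) = u := fun u hu =>
    (ste k N).left_inv (by rw [ste_source]; exact hu)
  have hright : ∀ z, ste k N ((ste k N).symm z) = z := fun z =>
    (ste k N).right_inv (by rw [ste_target]; trivial)
  set f : M → E k := fun x => ste k N (p x) with hf
  set G' : Set M := G ∩ {x | p x ≠ N} with hG'
  have hG'o : IsOpen G' := hG.inter (isOpen_ne_fun hpc continuous_const)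
  have hfs : ∀ x ∈ G', ContMDiffAt (𝓡 n) (𝓡 k) ∞ f x := fun x hx =>
    ContMDiffAt.comp (g := ste k N) x (ste_smooth k N _ hx.2) (hp x hx.1)
  obtain ⟨g, hg1, hg2⟩ := ste_amb k N
  have hnull : ∀ j : Fin k, volume ((fun x => f x j) '' G'ᶜ) = 0 := by
    intro j
    have h1 : Measure.hausdorffMeasure 1
        (((fun u : Sp k => (u : E (k + 1))) '' (p '' Gᶜ)) \ {(N : E (k + 1))}) = 0 := by
      refine measure_mono_null sdiff_subset ?_
      have hl : LipschitzWith 1 (fun u : Sp k => (u : E (k + 1))) := LipschitzWith.subtype_val _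
      have h2 := hl.hausdorffMeasure_image_le (d := 1) zero_le_one (p '' Gᶜ)
      rw [hB, mul_zero] at h2
      exact le_antisymm h2 bot_le
    have h2 := null_image h1 (fun u => g u j) (by
      rintro u ⟨⟨_, ⟨x, hx, rfl⟩, rfl⟩, hu⟩
      have h3 : p x ≠ N := fun h => hu (by rw [h]; rfl)
      have h4 : ContDiff ℝ 1 (fun v : E k => v j) := by fun_prop
      exact h4.contDiffAt.comp _ ((hg2 (p x) h3).of_le (by simp)))
    rw [hausdorffMeasure_real] at h2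
    have h5 : (fun x => f x j) '' G'ᶜ ⊆ ((fun u => g u j) ''
        (((fun u : Sp k => (u : E (k + 1))) '' (p '' Gᶜ)) \ {(N : E (k + 1))})) ∪
        {ste k N N j} := by
      rintro _ ⟨x, hx, rfl⟩
      by_cases hxN : p x = N
      · right
        show ste k N (p x) j = ste k N N j
        rw [hxN]
      · left
        have hxG : x ∈ Gᶜ := fun h => hx ⟨h, hxN⟩
        refine ⟨p x, ⟨⟨p x, ⟨x, hxG, rfl⟩, rfl⟩, fun h => hxN (Subtype.ext h)⟩, ?_⟩
        show g (p x) j = ste k N (p x) j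
        rw [hg1]
    refine measure_mono_null h5 ?_
    rw [measure_union_null_iff]
    exact ⟨h2, measure_singleton _⟩
  have hsymc : Continuous (ste k N).symm := by
    rw [← continuousOn_univ]
    have h1 := (ste k N).continuousOn_symm
    rwa [ste_target] at h1
  obtain ⟨c, hcO, hc⟩ := reg_n hR hn M f G' hk hG'o hfs hnull ((ste k N).symm ⁻¹' O)
    (hO.preimage hsymc) ⟨ste k N a₀, by
      show (ste k N).symm (ste k N a₀) ∈ O
      rw [hleft a₀ hNa]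
      exact ha₀⟩
  refine ⟨(ste k N).symm c, hcO, fun x hx => ?_⟩
  have hfx : f x = c := by
    show ste k N (p x) = c
    rw [hx, hright]
  obtain ⟨h1, h2⟩ := hc x hfx
  refine ⟨h1.1, fun w => ?_⟩
  have e1 : mfderiv (𝓡 n) (𝓡 k) f x =
      (mfderiv (𝓡 k) (𝓡 k) (ste k N) (p x)).comp (mfderiv (𝓡 n) (𝓡 k) p x) :=
    mfderiv_comp x ((ste_smooth k N _ h1.2).mdifferentiableAt (by simp))
      ((hp x h1.1).mdifferentiableAt (by simp))
  have i1 : Injective (mfderiv (𝓡 k) (𝓡 k) (ste k N) (p x)) := by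
    refine inj_of_left_inv (g := (ste k N).symm)
      ((ste_smooth k N _ h1.2).mdifferentiableAt (by simp))
      ((ste_symm_sm k N _).mdifferentiableAt (by simp)) ?_
    have h3 : ∀ᶠ u in 𝓝 (p x), u ≠ N := isOpen_ne.mem_nhds h1.2
    filter_upwards [h3] with u hu using hleft u hu
  obtain ⟨v, hv⟩ := h2 (mfderiv (𝓡 k) (𝓡 k) (ste k N) (p x) w)
  refine ⟨v, i1 ?_⟩
  rw [e1] at hv
  exact hv

theorem s_GEN (hR : S_REG) : S_GEN := by
  intro k l n M _ _ _ p q hn hk hl h hB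
  set hh : M ≃ₜ Sp k × Sp l := hm h with hhd
  have hhx : ∀ x, hh x = (p x, q x) := fun x => rfl
  have : SecondCountableTopology M := hh.secondCountableTopology
  obtain ⟨hpc, hqc⟩ := isHomeo_prod h
  set G : Set M := {x | NearS (n := n) p x ∧ NearS (n := n) q x} with hGd
  have hG : IsOpen G := by
    have h1 : G = {x | ∀ᶠ y in 𝓝 x, ContMDiffAt (𝓡 n) (𝓡 k) ∞ p y ∧
        ContMDiffAt (𝓡 n) (𝓡 l) ∞ q y} := by
      ext x
      exact Filter.eventually_and.symm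
    rw [h1]
    exact isOpen_setOfPred_eventually_nhds
  have hB' : Measure.hausdorffMeasure 1 ((fun x => (p x, q x)) '' Gᶜ) = 0 := hB
  have hGp : ∀ x ∈ G, ContMDiffAt (𝓡 n) (𝓡 k) ∞ p x := fun x hx => hx.1.self_of_nhds
  have hGq : ∀ x ∈ G, ContMDiffAt (𝓡 n) (𝓡 l) ∞ q x := fun x hx => hx.2.self_of_nhds
  have hBp : Measure.hausdorffMeasure 1 (p '' Gᶜ) = 0 := by
    have h2 := (LipschitzWith.prod_fst (α := Sp k) (β := Sp l)).hausdorffMeasure_image_le (d := 1)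
      zero_le_one ((fun x => (p x, q x)) '' Gᶜ)
    rw [hB', mul_zero, image_image] at h2
    exact le_antisymm h2 bot_le
  have hBq : Measure.hausdorffMeasure 1 (q '' Gᶜ) = 0 := by
    have h2 := (LipschitzWith.prod_snd (α := Sp k) (β := Sp l)).hausdorffMeasure_image_le (d := 1)
      zero_le_one ((fun x => (p x, q x)) '' Gᶜ)
    rw [hB', mul_zero, image_image] at h2
    exact le_antisymm h2 bot_le
  have subp := reg_sphere hR (m := l) (k := k) (n := n) (by omega) M p hpc G hk hG hGp hBp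
  have subq := reg_sphere hR (m := k) (k := l) (n := n) hn M q hqc G hl hG hGq hBq
  -- a good point
  obtain ⟨a₀, -, ha₀'⟩ := subp univ isOpen_univ ⟨⟨EuclideanSpace.single 0 1, by simp⟩, trivial⟩
  obtain ⟨b₀⟩ : Nonempty (Sp l) := ⟨⟨EuclideanSpace.single 0 1, by simp⟩⟩
  obtain ⟨x₀, hx₀⟩ := h.surjective (a₀, b₀)
  have hpx₀ : p x₀ = a₀ := congrArg Prod.fst hx₀
  have hqx₀ : q x₀ = b₀ := congrArg Prod.snd hx₀
  set W : Set M := G ∩ {x | p x ≠ -a₀} ∩ {x | q x ≠ -b₀} with hW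
  have hWo : IsOpen W := by
    refine (hG.inter ?_).inter ?_
    · exact isOpen_ne_fun hpc continuous_const
    · exact isOpen_ne_fun hqc continuous_const
  have hx₀W : x₀ ∈ W := by
    refine ⟨⟨(ha₀' x₀ hpx₀).1, ?_⟩, ?_⟩
    · show p x₀ ≠ -a₀
      rw [hpx₀]
      exact ne_neg_of_mem_unit_sphere ℝ a₀
    · show q x₀ ≠ -b₀
      rw [hqx₀]
      exact ne_neg_of_mem_unit_sphere ℝ b₀
  set F := Ph hn h (-a₀) (-b₀) with hF
  have hFs : F.source = {x | p x ≠ -a₀ ∧ q x ≠ -b₀} := Ph_source _ h _ _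
  have hWs : W ⊆ F.source := by
    rw [hFs]
    exact fun x hx => ⟨hx.1.2, hx.2⟩
  obtain ⟨x₁, hx₁, hld⟩ := exists_ld (n := n) F W hWo x₀ hx₀W
    (fun x hx => Ph_smooth _ h _ _ (hGp x hx.1.1) (hGq x hx.1.1) hx.1.2 hx.2)
    (fun V hV hVo => F.isOpen_image_of_subset_source hVo (hV.trans hWs))
  obtain ⟨V, hV, hVo, hx₁V⟩ :=
    _root_.mem_nhds_iff.1 (Filter.inter_mem (hWo.mem_nhds hx₁) hld.eventually)
  have hop : IsOpen (hh '' V) := hh.isOpenMap _ hVo
  have hmem : (p x₁, q x₁) ∈ hh '' V := ⟨x₁, hx₁V, rfl⟩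
  obtain ⟨P, hP, Q, hQ, hPQ⟩ := mem_nhds_prod_iff.1 (hop.mem_nhds hmem)
  obtain ⟨P', hP', hPo, hpP⟩ := _root_.mem_nhds_iff.1 hP
  obtain ⟨Q', hQ', hQo, hqQ⟩ := _root_.mem_nhds_iff.1 hQ
  obtain ⟨a, ha, ha'⟩ := subp P' hPo ⟨_, hpP⟩
  obtain ⟨b, hb, hb'⟩ := subq Q' hQo ⟨_, hqQ⟩
  have key : ∀ x, p x ∈ P' → q x ∈ Q' → x ∈ V := by
    intro x hxp hxq
    obtain ⟨y, hy, hyx⟩ := hPQ (mk_mem_prod (hP' hxp) (hQ' hxq))
    have : y = x := hh.injective (by rw [hyx, hhx])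
    rwa [← this]
  refine ⟨a, b, P', Q', hPo, hQo, ha, hb, fun x hx => ⟨(ha' x hx).1.1, (ha' x hx).1.2, (ha' x hx).2⟩,
    fun x hx => ⟨(hb' x hx).1.1, (hb' x hx).1.2, (hb' x hx).2⟩, fun x hxP hxQ => ?_⟩
  have hxV : x ∈ V := key x hxP hxQ
  have hxW : x ∈ W := (hV hxV).1
  have hxld : LD n F x := (hV hxV).2
  refine ⟨hxW.1.1.1, hxW.1.1.2, fun v hpv hqv => ?_⟩
  exact Ph_inj hn h (-a₀) (-b₀) (hGp x hxW.1.1) (hGq x hxW.1.1) hxW.1.2 hxW.2 hxld v hpv hqv

end Pool.Agent.L7h82.PS
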