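import Pool.Agent.L7h82.PS.Mov
import Pool.Agent.N550.PS.Cir

/-!
# Project PS: the second projection
-/

set_option autoImplicit false

open Set Filter Topology Metric Function MeasureTheory
open scoped Manifold ContDiff

noncomputable section

namespace Pool.Agent.L7h82.PS

open Pool.Agent.Y522 Pool.Agent.N550.SH Pool.Agent.N550.KH Pool.Agent.N550.PS

/-- maps to spheres with injective derivatives are local diffeomorphisms -/
theorem ld_sphere {m : ℕ} {Y : Type} [TopologicalSpace Y] [ChartedSpace (E m) Y]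
    [IsManifold (𝓡 m) ∞ Y] (f : Y → Sp m) (y : Y)
    (hf : ∀ᶠ z in 𝓝 y, ContMDiffAt (𝓡 m) (𝓡 m) ∞ f z)
    (hi : Injective (mfderiv (𝓡 m) (𝓡 m) f y)) : LD m f y := by
  obtain ⟨N, hN⟩ : ∃ N : Sp m, N = -(f y) := ⟨_, rfl⟩
  have hne : f y ≠ N := by
    rw [hN]
    exact ne_neg_of_mem_unit_sphere ℝ (f y)
  have hev : ∀ᶠ z in 𝓝 y, f z ≠ N := by
    have h1 : ContinuousAt f y := hf.self_of_nhds.continuousAt
    exact h1.eventually (isOpen_ne.mem_nhds hne)
  have hsm : ∀ᶠ z in 𝓝 y, ContMDiffAt (𝓡 m) (𝓡 m) ∞ (fun z => ste m N (f z)) z := by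
    filter_upwards [hf, hev] with z h1 h2
    exact ContMDiffAt.comp (g := ste m N) z (ste_smooth m N _ h2) h1
  have e1 : mfderiv (𝓡 m) (𝓡 m) (fun z => ste m N (f z)) y =
      (mfderiv (𝓡 m) (𝓡 m) (ste m N) (f y)).comp (mfderiv (𝓡 m) (𝓡 m) f y) :=
    mfderiv_comp y ((ste_smooth m N _ hne).mdifferentiableAt (by simp))
      (hf.self_of_nhds.mdifferentiableAt (by simp))
  have hleft : ∀ u, u ≠ N → (ste m N).symm (ste m N u) = u := fun u hu =>
    (ste m N).left_inv (by rw [ste_source]; exact hu)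
  have i1 : Injective (mfderiv (𝓡 m) (𝓡 m) (ste m N) (f y)) := by
    refine inj_of_left_inv (g := (ste m N).symm)
      ((ste_smooth m N _ hne).mdifferentiableAt (by simp))
      ((ste_symm_sm m N _).mdifferentiableAt (by simp)) ?_
    have h3 : ∀ᶠ u in 𝓝 (f y), u ≠ N := isOpen_ne.mem_nhds hne
    filter_upwards [h3] with u hu using hleft u hu
  have h4 : LD m (fun z => ste m N (f z)) y := by
    refine Cir.ld_of_inj (fun z => ste m N (f z)) y hsm ?_
    rw [e1]
    exact i1.comp hi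
  have h5 : LD m (fun z => (ste m N).symm (ste m N (f z))) y :=
    LD.comp_fun (g := (ste m N).symm) (ste_symm_ld m N _) h4
  refine h5.congr ?_
  filter_upwards [hev] with z hz
  exact (hleft _ hz).symm

theorem s_PI (hE : S_EXT) : S_PI := by
  intro m M Y _ _ _ _ _ _ _ _ _ _ j p q a b cY hm0 h hsm hTr hji hjs hjd hjr hjk hci hcd hcr
  obtain ⟨hpc, hqc⟩ := isHomeo_prod h
  have hinj : ∀ x y, p x = p y → q x = q y → x = y := fun x y h2 h3 =>
    h.injective (Prod.ext h2 h3)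
  have hjc : Continuous j := hjs.continuous
  have hpj : ∀ y, p (j y) = a := fun y => by
    have h3 : j y ∈ range j := ⟨y, rfl⟩
    rw [hjr] at h3
    exact h3
  obtain ⟨qj, hqj⟩ : ∃ qj : Y → Sp m, qj = fun y => q (j y) := ⟨_, rfl⟩
  have hqjv : ∀ y, qj y = q (j y) := fun y => by rw [hqj]
  have hqjc : Continuous qj := by
    rw [hqj]
    exact hqc.comp hjc
  have hqji : Injective qj := by
    intro y z hyz
    rw [hqjv, hqjv] at hyz
    exact hji (hinj _ _ ((hpj y).trans (hpj z).symm) hyz)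
  -- the point over `b`
  obtain ⟨yb, hyb⟩ : ∃ yb, qj yb = b := by
    obtain ⟨x, hx⟩ := h.surjective (a, b)
    have h1 : x ∈ range j := by
      rw [hjr]
      exact congrArg Prod.fst hx
    obtain ⟨y, rfl⟩ := h1
    exact ⟨y, by rw [hqjv]; exact congrArg Prod.snd hx⟩
  have hybq : q (j yb) = b := by rw [← hqjv, hyb]
  have hqjs : ∀ y, ContMDiffAt (𝓡 m) (𝓡 m) ∞ qj y := by
    intro y
    rw [hqj]
    exact ContMDiffAt.comp (g := q) y (hsm (j y) (Or.inl (hpj y))).2.self_of_nhds (hjs y)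
  -- derivatives of `j`
  have hdpj : ∀ y w, mfderiv (𝓡 (m + 1)) (𝓡 1) p (j y) (mfderiv (𝓡 m) (𝓡 (m + 1)) j y w) = 0 := by
    intro y w
    have hp1 : MDifferentiableAt (𝓡 (m + 1)) (𝓡 1) p (j y) :=
      ((hsm (j y) (Or.inl (hpj y))).1.self_of_nhds).mdifferentiableAt (by simp)
    have h1 : mfderiv (𝓡 m) (𝓡 1) (fun z => p (j z)) y =
        (mfderiv (𝓡 (m + 1)) (𝓡 1) p (j y)).comp (mfderiv (𝓡 m) (𝓡 (m + 1)) j y) :=
      mfderiv_comp y hp1 ((hjs y).mdifferentiableAt (by simp))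
    have h2 : (fun z => p (j z)) = fun _ => a := funext hpj
    rw [h2, mfderiv_const] at h1
    exact (congrArg (fun A => A w) h1).symm
  have hld : LD m qj yb := by
    refine ld_sphere qj yb (Eventually.of_forall hqjs) ?_
    have h1 : mfderiv (𝓡 m) (𝓡 m) qj yb =
        (mfderiv (𝓡 (m + 1)) (𝓡 m) q (j yb)).comp (mfderiv (𝓡 m) (𝓡 (m + 1)) j yb) := by
      rw [hqj]
      exact mfderiv_comp yb (((hsm (j yb) (Or.inl (hpj yb))).2.self_of_nhds).mdifferentiableAt
        (by simp)) ((hjs yb).mdifferentiableAt (by simp))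
    rw [injective_iff_map_eq_zero]
    intro w hw
    rw [h1] at hw
    have h2 := (hTr (j yb) hybq).2.2 (mfderiv (𝓡 m) (𝓡 (m + 1)) j yb w) (hdpj yb w) hw
    exact hjd yb (h2.trans (map_zero _).symm)
  obtain ⟨θ, hθ1, hθ2, hθ3, hθ4⟩ := hld.exists_inverse
  rw [hyb] at hθ1 hθ2 hθ4
  -- a neighbourhood of `b`
  obtain ⟨O, hO, hOo, hbO⟩ := _root_.mem_nhds_iff.1 (Filter.inter_mem hθ1.eventually hθ4)
  have hO1 : ∀ z ∈ O, LD m θ z := fun z hz => (hO hz).1
  have hO2 : ∀ z ∈ O, qj (θ z) = z := fun z hz => (hO hz).2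
  have hO3 : ∀ y, qj y ∈ O → θ (qj y) = y := fun y hy => hqji (hO2 _ hy)
  obtain ⟨β, hβ0, hβ1, -⟩ := exists_contMDiffMap_zero_one_nhds_of_isClosed (𝓡 m) (n := ⊤)
    (s := {b}) (t := Oᶜ) isClosed_singleton hOo.isClosed_compl
    (disjoint_singleton_left.2 fun h => h hbO)
  rw [nhdsSet_singleton] at hβ0
  obtain ⟨O₀, hO₀, hO₀o, hbO₀⟩ := _root_.mem_nhds_iff.1 (Filter.inter_mem hβ0 (hOo.mem_nhds hbO))
  have hβO : ∀ z ∈ O₀, β z = 0 := fun z hz => (hO₀ hz).1
  have hO₀O : ∀ z ∈ O₀, z ∈ O := fun z hz => (hO₀ hz).2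
  -- the inverse of the cell
  obtain ⟨γ, hγ⟩ : ∃ γ : Y → E m, ∀ z, γ (cY z) = z := ⟨invFun cY, leftInverse_invFun hci⟩
  have hγd : ∀ z, LD m γ (cY z) := fun z =>
    LD.inverse isOpen_univ (fun x _ => hcd x) (fun x _ => hγ x) (mem_univ z)
  have hcγ : ∀ y, qj y ≠ b → cY (γ y) = y := by
    intro y hy
    have h1 : y ∈ range cY := by
      rw [hcr]
      show q (j y) ≠ b
      rwa [← hqjv]
    obtain ⟨z, rfl⟩ := h1
    rw [hγ]
  -- the radius
  obtain ⟨R, hR⟩ : ∃ R : ℝ, ∀ y, qj y ∉ O₀ → ‖γ y‖ ≤ R := by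
    have hcpt : IsCompact {y | qj y ∉ O₀} :=
      (hO₀o.isClosed_compl.preimage hqjc).isCompact
    have hγc : ContinuousOn γ {y | qj y ∉ O₀} := by
      intro y hy
      have h1 : qj y ≠ b := fun h => hy (h ▸ hbO₀)
      have h2 := (hγd (γ y)).continuousAt
      rw [hcγ y h1] at h2
      exact h2.continuousWithinAt
    obtain ⟨R, hR⟩ := (hcpt.image_of_continuousOn hγc).isBounded.subset_closedBall (0 : E m)
    refine ⟨R, fun y hy => ?_⟩
    have := hR ⟨y, hy, rfl⟩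
    rwa [mem_closedBall_zero_iff] at this
  -- the extension
  obtain ⟨τ, hτ1, hτ2⟩ := hE m 1 M (fun z => j (cY z)) (hji.comp hci)
    (fun z => ContMDiffAt.comp (g := j) z (hjs _) (hcd z).contMDiffAt)
    (fun s => by
      have e1 : mfderiv (𝓡 m) (𝓡 (m + 1)) (fun z => j (cY z)) s =
          (mfderiv (𝓡 m) (𝓡 (m + 1)) j (cY s)).comp (mfderiv (𝓡 m) (𝓡 m) cY s) :=
        mfderiv_comp s ((hjs _).mdifferentiableAt (by simp))
          ((hcd s).contMDiffAt.mdifferentiableAt (by simp))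
      rw [e1]
      exact (hjd _).comp (hcd s).mfderiv_injective) id contDiff_id R
  classical
  let F : M → Y := fun x => cY (β (q x) • τ x + (1 - β (q x)) • γ (θ (q x)))
  let π : M → Y := fun x => if q x ∈ O₀ then θ (q x) else F x
  have hπ0 : ∀ x, q x ∈ O₀ → π x = θ (q x) := fun x hx => if_pos hx
  have hπ1 : ∀ x, q x ∉ O₀ → π x = F x := fun x hx => if_neg hx
  have hπF : ∀ x, q x ≠ b → π x = F x := by
    intro x hx
    by_cases hxO : q x ∈ O₀
    · rw [hπ0 x hxO]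
      show θ (q x) = cY (β (q x) • τ x + (1 - β (q x)) • γ (θ (q x)))
      rw [hβO _ hxO, zero_smul, sub_zero, one_smul, zero_add, hcγ]
      rw [hO2 _ (hO₀O _ hxO)]
      exact hx
    · exact hπ1 x hxO
  have hπj : ∀ y, π (j y) = y := by
    intro y
    by_cases hyO : q (j y) ∈ O₀
    · rw [hπ0 _ hyO, ← hqjv]
      exact hO3 y (by rw [hqjv]; exact hO₀O _ hyO)
    · rw [hπ1 _ hyO]
      have hyO' : qj y ∉ O₀ := by rwa [hqjv]
      have hyb' : qj y ≠ b := fun h => hyO' (h ▸ hbO₀)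
      have h1 : τ (j y) = γ y := by
        have h2 := hτ2 (γ y) (hR y hyO')
        have h3 : j (cY (γ y)) = j y := by rw [hcγ y hyb']
        rw [h3] at h2
        exact h2
      show cY (β (q (j y)) • τ (j y) + (1 - β (q (j y))) • γ (θ (q (j y)))) = y
      rw [h1]
      by_cases hyO2 : qj y ∈ O
      · rw [← hqjv, hO3 y hyO2, ← add_smul, add_sub_cancel, one_smul, hcγ y hyb']
      · have h2 : β (qj y) = 1 := (hβ1.self_of_nhdsSet) (qj y) hyO2
        rw [← hqjv, h2, one_smul, sub_self, zero_smul, add_zero, hcγ y hyb']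
  -- smoothness
  have hsmooth : ∀ x, p x = a ∨ q x = b →
      ∀ᶠ y in 𝓝 x, ContMDiffAt (𝓡 (m + 1)) (𝓡 m) ∞ π y := by
    intro x hx
    have hqs : ∀ᶠ y in 𝓝 x, ContMDiffAt (𝓡 (m + 1)) (𝓡 m) ∞ q y := (hsm x hx).2
    -- reduction to an eventual formula
    have red : ∀ f : M → Y, (∀ᶠ y in 𝓝 x, π y = f y) →
        (∀ᶠ y in 𝓝 x, ContMDiffAt (𝓡 (m + 1)) (𝓡 m) ∞ f y) →
        ∀ᶠ y in 𝓝 x, ContMDiffAt (𝓡 (m + 1)) (𝓡 m) ∞ π y := by
      intro f h1 h2
      filter_upwards [h1.eventually_nhds, h2] with y h3 h4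
      exact h4.congr_of_eventuallyEq h3
    by_cases hxO : q x ∈ O₀
    · refine red (fun y => θ (q y)) ?_ ?_
      · filter_upwards [(hO₀o.preimage hqc).mem_nhds hxO] with y hy using hπ0 y hy
      · filter_upwards [(hO₀o.preimage hqc).mem_nhds hxO, hqs] with y hy hy2
        exact ContMDiffAt.comp (g := θ) y (hO1 _ (hO₀O _ hy)).contMDiffAt hy2
    · have hxb : q x ≠ b := fun h => hxO (h ▸ hbO₀)
      have hneb : ∀ᶠ y in 𝓝 x, q y ≠ b := hqc.continuousAt.eventually (isOpen_ne.mem_nhds hxb)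
      have hβs : ∀ᶠ y in 𝓝 x, ContMDiffAt (𝓡 (m + 1)) 𝓘(ℝ, ℝ) ∞ (fun y => β (q y)) y := by
        filter_upwards [hqs] with y hy
        exact ContMDiffAt.comp (g := β) y (β.contMDiff _) hy
      by_cases hxO2 : q x ∈ O
      · refine red F ?_ ?_
        · filter_upwards [hneb] with y hy using hπF y hy
        · filter_upwards [hneb, hqs, hβs, (hOo.preimage hqc).mem_nhds hxO2] with y h1 h2 h3 h4
          have h5 : ContMDiffAt (𝓡 (m + 1)) (𝓡 m) ∞ (fun y => θ (q y)) y :=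
            ContMDiffAt.comp (g := θ) y (hO1 _ h4).contMDiffAt h2
          have h6 : ContMDiffAt (𝓡 (m + 1)) (𝓡 m) ∞ (fun y => γ (θ (q y))) y := by
            refine ContMDiffAt.comp (g := γ) y ?_ h5
            have h7 := (hγd (γ (θ (q y)))).contMDiffAt
            rwa [hcγ (θ (q y)) (by rw [hO2 _ h4]; exact h1)] at h7
          have h8 : ContMDiffAt (𝓡 (m + 1)) (𝓡 m) ∞
              (fun y => β (q y) • τ y + (1 - β (q y)) • γ (θ (q y))) y := by
            have h9 : ContMDiffAt (𝓡 (m + 1)) 𝓘(ℝ, ℝ) ∞ (fun y => 1 - β (q y)) y :=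
              contMDiffAt_const.sub h3
            exact (h3.smul (hτ1 y)).add (h9.smul h6)
          exact ContMDiffAt.comp (g := cY) y (hcd _).contMDiffAt h8
      · have hβev : ∀ᶠ y in 𝓝 x, β (q y) = 1 := by
          have h1 : ∀ᶠ z in 𝓝 (q x), β z = 1 :=
            (eventually_nhdsSet_iff_forall.1 hβ1) (q x) hxO2
          exact hqc.continuousAt.eventually h1
        refine red (fun y => cY (τ y)) ?_ ?_
        · filter_upwards [hβev, hneb] with y h1 h2
          rw [hπF y h2]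
          show cY (β (q y) • τ y + (1 - β (q y)) • γ (θ (q y))) = cY (τ y)
          rw [h1, one_smul, sub_self, zero_smul, add_zero]
        · exact Eventually.of_forall fun y =>
            ContMDiffAt.comp (g := cY) y (hcd _).contMDiffAt (hτ1 y)
  refine ⟨π, hπj, fun x hx => ?_, fun x hx => ⟨hsmooth x hx, fun v hv1 hv2 => ?_⟩⟩
  · have h1 : π x = yb := by
      rw [hπ0 x (hx ▸ hbO₀), hx, hθ2]
    rw [h1, hybq]
  · by_cases hxb : q x = b
    · have h1 : ∀ᶠ y in 𝓝 x, π y = θ (q y) := by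
        filter_upwards [(hO₀o.preimage hqc).mem_nhds (show q x ∈ O₀ from hxb ▸ hbO₀)] with y hy
          using hπ0 y hy
      have h2 : mfderiv (𝓡 (m + 1)) (𝓡 m) π x =
          (mfderiv (𝓡 m) (𝓡 m) θ (q x)).comp (mfderiv (𝓡 (m + 1)) (𝓡 m) q x) := by
        rw [Filter.EventuallyEq.mfderiv_eq h1]
        exact mfderiv_comp x ((hO1 _ (hxb ▸ hbO)).contMDiffAt.mdifferentiableAt (by simp))
          ((hsm x hx).2.self_of_nhds.mdifferentiableAt (by simp))
      rw [h2] at hv2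
      have h3 : mfderiv (𝓡 (m + 1)) (𝓡 m) q x v = 0 :=
        (hO1 _ (hxb ▸ hbO)).mfderiv_injective (hv2.trans (map_zero _).symm)
      exact (hTr x hxb).2.2 v hv1 h3
    · have hxa : p x = a := hx.resolve_right hxb
      obtain ⟨y, rfl⟩ : x ∈ range j := by rw [hjr]; exact hxa
      obtain ⟨w, rfl⟩ := hjk y v hv1
      have h1 : mfderiv (𝓡 m) (𝓡 m) (fun z => π (j z)) y =
          (mfderiv (𝓡 (m + 1)) (𝓡 m) π (j y)).comp (mfderiv (𝓡 m) (𝓡 (m + 1)) j y) :=
        mfderiv_comp y ((hsmooth (j y) hx).self_of_nhds.mdifferentiableAt (by simp))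
          ((hjs y).mdifferentiableAt (by simp))
      have h2 : (fun z => π (j z)) = id := funext hπj
      rw [h2, mfderiv_id] at h1
      have h3 : w = mfderiv (𝓡 (m + 1)) (𝓡 m) π (j y) (mfderiv (𝓡 m) (𝓡 (m + 1)) j y w) :=
        congrArg (fun A => A w) h1
      rw [hv2] at h3
      rw [h3]
      exact map_zero _

end Pool.Agent.L7h82.PS
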