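import Pool.Agent.L7h82.PS.Ho
import Pool.Agent.L7h82.PS.Gen
import Pool.Agent.L7h82.PS.Pi
import Pool.Agent.L7h23.PS.Fib
import Pool.Agent.L7h23.PS.Pr

/-!
# Project PS: the theorem
-/

set_option autoImplicit false

open Set Filter Topology Metric Function MeasureTheory
open scoped Manifold ContDiff

noncomputable section

namespace Pool.Agent.L7h82.PS

open Pool.Agent.Y522 Pool.Agent.N550.SH Pool.Agent.N550.KH Pool.Agent.N550.PS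

theorem final (M : Type) [TopologicalSpace M] [ChartedSpace (E 4) M]
    [IsManifold (𝓡 4) ∞ M] (f : M ≃ₜ Sp 1 × Sp 3)
    (hf : Measure.hausdorffMeasure 1 (f '' {x | ¬ ∀ᶠ y in 𝓝 x,
      ContMDiffAt (𝓡 4) ((𝓡 1).prod (𝓡 3)) ∞ f y}) = 0) :
    ∃ (Y : Type) (_ : TopologicalSpace Y) (_ : ChartedSpace (E 3) Y)
      (_ : IsManifold (𝓡 3) ∞ Y) (G : M ≃ₜ Sp 1 × Y) (x₀ : M),
      (∀ x, x ≠ x₀ → IsLocalDiffeomorphAt (𝓡 4) ((𝓡 1).prod (𝓡 3)) ∞ G x) ∧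
      ∀ y₀ : Y, ∃ κ : Y ≃ₜ Sp 3, ∀ y, y ≠ y₀ → IsLocalDiffeomorphAt (𝓡 3) (𝓡 3) ∞ κ y :=
  ho (s_FIN (s_GEN Pool.Agent.N550.KH.Reg.main) Pool.Agent.N550.PS.Cir.main Pool.Agent.L7h23.PS.s_FIB (s_PI Pool.Agent.N550.KH.Ext.main)
    Pool.Agent.L7h23.PS.Pr.s_PR (s_MOV Pool.Agent.N550.KH.Shift.main.1 Pool.Agent.N550.KH.Supp.main Pool.Agent.N550.KH.asm) Pool.Agent.N550.KH.asm) M f hf

end Pool.Agent.L7h82.PS
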