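import Pool.Agent.L7h82.PS.Asm

/-!
# Project PS: the hand-in from the statement `S_FIN`
-/

set_option autoImplicit false

open Set Filter Topology Metric Function MeasureTheory
open scoped Manifold ContDiff

noncomputable section

namespace Pool.Agent.L7h82.PS

open Pool.Agent.Y522 Pool.Agent.N550.SH Pool.Agent.N550.KH Pool.Agent.N550.PS

theorem ho (hF : Pool.Agent.N550.PS.S_FIN) (M : Type) [TopologicalSpace M] [ChartedSpace (E 4) M]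
    [IsManifold (𝓡 4) ∞ M] (f : M ≃ₜ Sp 1 × Sp 3)
    (hf : Measure.hausdorffMeasure 1 (f '' {x | ¬ ∀ᶠ y in 𝓝 x,
      ContMDiffAt (𝓡 4) ((𝓡 1).prod (𝓡 3)) ∞ f y}) = 0) :
    ∃ (Y : Type) (_ : TopologicalSpace Y) (_ : ChartedSpace (E 3) Y)
      (_ : IsManifold (𝓡 3) ∞ Y) (G : M ≃ₜ Sp 1 × Y) (x₀ : M),
      (∀ x, x ≠ x₀ → IsLocalDiffeomorphAt (𝓡 4) ((𝓡 1).prod (𝓡 3)) ∞ G x) ∧
      ∀ y₀ : Y, ∃ κ : Y ≃ₜ Sp 3, ∀ y, y ≠ y₀ → IsLocalDiffeomorphAt (𝓡 3) (𝓡 3) ∞ κ y := by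
  have h1 : IsHomeomorph (fun x => ((f x).1, (f x).2)) := f.isHomeomorph
  refine hF M (fun x => (f x).1) (fun x => (f x).2) h1 ?_
  refine measure_mono_null ?_ hf
  rintro _ ⟨x, hx, rfl⟩
  refine ⟨x, fun h => hx ⟨?_, ?_⟩, rfl⟩
  · filter_upwards [h] with y hy using hy.fst
  · filter_upwards [h] with y hy using hy.snd

end Pool.Agent.L7h82.PS
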