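import Pool.Agent.L7h82.PS.Asm
import Pool.Agent.N550.KH.Shift
import Pool.Agent.N550.KH.Supp
import Pool.Agent.N550.KH.Asm

/-!
# Project PS: moving points
-/

set_option autoImplicit false

open Set Filter Topology Metric Function MeasureTheory
open scoped Manifold ContDiff

noncomputable section

namespace Pool.Agent.L7h82.PS

open Pool.Agent.Y522 Pool.Agent.N550.SH Pool.Agent.N550.KH Pool.Agent.N550.PS

/-- moving a point of a Euclidean space -/
theorem move_E (hP : S_PERT) (n : ℕ) (z₁ z₂ : E n) :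
    ∃ κ : E n → E n, IsDf n κ ∧ (∃ R : ℝ, ∀ z, R ≤ ‖z‖ → κ z = z) ∧ κ z₁ = z₂ := by
  let g : ContDiffBump (0 : E n) := ⟨1, 2, one_pos, one_lt_two⟩
  have hg : ContDiff ℝ ∞ (g : E n → ℝ) := g.contDiff
  obtain ⟨C, hC⟩ := (g.hasCompactSupport.fderiv ℝ).exists_bound_of_continuous
    (hg.continuous_fderiv (by simp))
  have hC0 : 0 ≤ C := (norm_nonneg _).trans (hC 0)
  set w := z₂ - z₁ with hw
  set s : ℝ := 1 / (2 * (C + 1) * (‖w‖ + 1)) with hs
  have hs0 : 0 < s := by positivity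
  have hsm : ContDiff ℝ ∞ (fun z : E n => g (s • (z - z₁))) :=
    hg.comp (by fun_prop : ContDiff ℝ ∞ fun z : E n => s • (z - z₁))
  have hsC : s * C * ‖w‖ ≤ 1 / 2 := by
    have h1 : s * (2 * (C + 1) * (‖w‖ + 1)) = 1 := by
      rw [hs]; field_simp
    have h2 : 0 ≤ ‖w‖ := norm_nonneg w
    nlinarith [mul_nonneg hs0.le hC0, mul_nonneg hs0.le h2, mul_nonneg (mul_nonneg hs0.le hC0) h2]
  have hd : ∀ z, ‖fderiv ℝ (fun z : E n => g (s • (z - z₁))) z‖ * ‖w‖ ≤ 1 / 2 := by
    intro z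
    have h1 : HasFDerivAt (fun z : E n => s • (z - z₁)) (s • ContinuousLinearMap.id ℝ (E n)) z :=
      ((hasFDerivAt_id z).sub_const z₁).const_smul s
    have h2 : HasFDerivAt (g : E n → ℝ) (fderiv ℝ g (s • (z - z₁))) (s • (z - z₁)) :=
      ((hg.differentiable (by simp)) _).hasFDerivAt
    have h3 := (h2.comp z h1).fderiv
    have h4 : ‖fderiv ℝ (fun z : E n => g (s • (z - z₁))) z‖ ≤ s * C := by
      have h5 : fderiv ℝ (fun z : E n => g (s • (z - z₁))) z =
          (fderiv ℝ g (s • (z - z₁))).comp (s • ContinuousLinearMap.id ℝ (E n)) := h3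
      rw [h5, ContinuousLinearMap.comp_smul, ContinuousLinearMap.comp_id, norm_smul,
        Real.norm_eq_abs, abs_of_pos hs0]
      exact mul_le_mul_of_nonneg_left (hC _) hs0.le
    exact (mul_le_mul_of_nonneg_right h4 (norm_nonneg w)).trans hsC
  refine ⟨fun z => z + g (s • (z - z₁)) • w, hP n _ w (1 / 2) hsm (by norm_num) hd,
    ⟨2 / s + ‖z₁‖, fun z hz => ?_⟩, ?_⟩
  · have h1 : 2 ≤ ‖s • (z - z₁)‖ := by
      rw [norm_smul, Real.norm_eq_abs, abs_of_pos hs0]
      have h2 : 2 / s ≤ ‖z - z₁‖ := by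
        have := norm_sub_norm_le z z₁
        linarith
      rw [div_le_iff₀ hs0] at h2
      linarith
    have h2 : g (s • (z - z₁)) = 0 := g.zero_of_le_dist (by rwa [dist_zero_right])
    show z + g (s • (z - z₁)) • w = z
    rw [h2, zero_smul, add_zero]
  · show z₁ + g (s • (z₁ - z₁)) • w = z₂
    have h2 : g (s • (z₁ - z₁)) = 1 := by
      rw [sub_self, smul_zero]
      exact g.one_of_mem_closedBall (mem_closedBall_self g.rIn_pos.le)
    rw [h2, one_smul, hw, add_sub_cancel]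

/-- moving a point of a cell -/
theorem move_cell (hP : S_PERT) (hS : S_SUPP) {n : ℕ} {N : Type} [TopologicalSpace N] [T2Space N]
    [ChartedSpace (E n) N] (h : E n → N) (hi : Injective h) (hd : ∀ z, LD n h z) (z₁ z₂ : E n) :
    ∃ D : N → N, IsDf n D ∧ D (h z₁) = h z₂ := by
  obtain ⟨κ, h1, h2, h3⟩ := move_E hP n z₁ z₂
  obtain ⟨K, h4, h5, -⟩ := hS n N h hi hd κ h1 h2
  exact ⟨K, h4, by rw [h5, h3]⟩

theorem LD_uB {n : ℕ} (c : E n) {r : ℝ} (hr : 0 < r) (x : E n) :
    LD n (OpenPartialHomeomorph.univBall c r) x := by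
  refine ⟨{ toPartialEquiv := (OpenPartialHomeomorph.univBall c r).toPartialEquiv
            open_source := (OpenPartialHomeomorph.univBall c r).open_source
            open_target := (OpenPartialHomeomorph.univBall c r).open_target
            contMDiffOn_toFun := ?_
            contMDiffOn_invFun := ?_ }, ?_, ?_⟩
  · exact (contMDiff_iff_contDiff.2 OpenPartialHomeomorph.contDiff_univBall).contMDiffOn
  · have h1 : ContDiffOn ℝ ∞ (OpenPartialHomeomorph.univBall c r).symm (ball c r) :=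
      OpenPartialHomeomorph.contDiffOn_univBall_symm
    have h2 : (OpenPartialHomeomorph.univBall c r).target = ball c r :=
      OpenPartialHomeomorph.univBall_target _ hr
    rw [← h2] at h1
    exact h1.contMDiffOn
  · show x ∈ (OpenPartialHomeomorph.univBall c r).source
    rw [OpenPartialHomeomorph.univBall_source]
    trivial
  · intro _ _
    rfl

/-- cells around a point -/
theorem cell_nhds {n : ℕ} {N : Type} [TopologicalSpace N] [ChartedSpace (E n) N]
    [IsManifold (𝓡 n) ∞ N] (x : N) : ∃ h : E n → N, Injective h ∧ (∀ z, LD n h z) ∧ h 0 = x := by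
  set e := chartAt (E n) x with he
  have h1 : e x ∈ e.target := e.map_source (mem_chart_source _ x)
  obtain ⟨r, hr, hrt⟩ := Metric.isOpen_iff.1 e.open_target (e x) h1
  set B := OpenPartialHomeomorph.univBall (e x) r with hB
  have hBt : ∀ z, B z ∈ ball (e x) r := by
    intro z
    have h2 : B z ∈ B.target := B.map_source (by
      rw [hB, OpenPartialHomeomorph.univBall_source]; trivial)
    rwa [hB, OpenPartialHomeomorph.univBall_target _ hr] at h2
  have hBi : Injective B := by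
    intro a b hab
    have h2 : ∀ z, B.symm (B z) = z := fun z => B.left_inv (by
      rw [hB, OpenPartialHomeomorph.univBall_source]; trivial)
    rw [← h2 a, hab, h2 b]
  refine ⟨fun z => e.symm (B z), fun a b hab => ?_, fun z => ?_, ?_⟩
  · have h2 : ∀ z, e (e.symm (B z)) = B z := fun z => e.right_inv (hrt (hBt z))
    apply hBi
    have h3 : e.symm (B a) = e.symm (B b) := hab
    rw [← h2 a, h3, h2 b]
  · exact LD.comp_fun (ld_chart_symm' x (B z) (hrt (hBt z)))
      (LD_uB (e x) hr z)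
  · show e.symm (B 0) = x
    rw [hB, OpenPartialHomeomorph.univBall_apply_zero]
    exact e.left_inv (mem_chart_source _ x)

theorem isDf_comp' {n : ℕ} {A B D : Type} [TopologicalSpace A] [ChartedSpace (E n) A]
    [TopologicalSpace B] [ChartedSpace (E n) B] [TopologicalSpace D] [ChartedSpace (E n) D]
    {f : B → D} {g : A → B} (hf : IsDf n f) (hg : IsDf n g) : IsDf n (f ∘ g) :=
  ⟨hf.1.comp hg.1, fun x => LD.comp_fun (g := f) (f := g) (hf.2 (g x)) (hg.2 x)⟩

/-- moving a point to the point off the cell -/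
theorem move_to (hP : S_PERT) (hS : S_SUPP) {m : ℕ} {Y : Type} [TopologicalSpace Y] [T2Space Y]
    [ChartedSpace (E m) Y] [IsManifold (𝓡 m) ∞ Y] (cY : E m → Y) (y₁ : Y) (hm : 0 < m)
    (hi : Injective cY) (hd : ∀ z, LD m cY z) (hr : range cY = {y₁}ᶜ) (y₂ : Y) :
    ∃ D : Y → Y, IsDf m D ∧ D y₂ = y₁ := by
  by_cases h : y₂ = y₁
  · exact ⟨id, ⟨bijective_id, fun x => LD.id x⟩, h⟩
  obtain ⟨z₂, hz₂⟩ : y₂ ∈ range cY := by rw [hr]; exact h
  obtain ⟨k, hki, hkd, hk0⟩ := cell_nhds (n := m) y₁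
  -- a second point in the cell around `y₁`
  have : NeZero m := ⟨hm.ne'⟩
  obtain ⟨e, he⟩ : ∃ e : E m, e ≠ 0 := ⟨EuclideanSpace.single 0 1, by simp⟩
  have h1 : k e ≠ y₁ := fun h2 => he (hki (h2.trans hk0.symm))
  obtain ⟨z', hz'⟩ : k e ∈ range cY := by rw [hr]; exact h1
  obtain ⟨D₁, hD₁, hD₁'⟩ := move_cell hP hS cY hi hd z₂ z'
  obtain ⟨D₂, hD₂, hD₂'⟩ := move_cell hP hS k hki hkd e 0
  refine ⟨D₂ ∘ D₁, isDf_comp' hD₂ hD₁, ?_⟩
  show D₂ (D₁ y₂) = y₁
  rw [← hz₂, hD₁', hz', hD₂', hk0]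

theorem ste_symm_ld (k : ℕ) (b : Sp k) (z : E k) : LD k (ste k b).symm z := by
  have := Fact.mk (@finrank_euclideanSpace_fin ℝ _ (k + 1))
  have hmax : ste k b ∈ IsManifold.maximalAtlas (𝓡 k) ∞ (Sp k) :=
    IsManifold.subset_maximalAtlas ⟨b, rfl⟩
  refine ⟨{ toPartialEquiv := (ste k b).symm.toPartialEquiv
            open_source := (ste k b).symm.open_source
            open_target := (ste k b).symm.open_target
            contMDiffOn_toFun := contMDiffOn_symm_of_mem_maximalAtlas hmax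
            contMDiffOn_invFun := contMDiffOn_of_mem_maximalAtlas hmax }, ?_, fun _ _ => rfl⟩
  show z ∈ (ste k b).target
  rw [ste_target]
  trivial

/-- a bijective local diffeomorphism as a diffeomorphism -/
def dfm {n : ℕ} {A B : Type} [TopologicalSpace A] [ChartedSpace (E n) A] [TopologicalSpace B]
    [ChartedSpace (E n) B] {D : A → B} (h : IsDf n D) : Diffeomorph (𝓡 n) (𝓡 n) A B ∞ :=
  IsLocalDiffeomorph.diffeomorphOfBijective (show IsLocalDiffeomorph (𝓡 n) (𝓡 n) ∞ D from h.2) h.1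

theorem dfm_apply {n : ℕ} {A B : Type} [TopologicalSpace A] [ChartedSpace (E n) A]
    [TopologicalSpace B] [ChartedSpace (E n) B] {D : A → B} (h : IsDf n D) (x : A) :
    dfm h x = D x := rfl

theorem s_MOV (hP : S_PERT) (hS : S_SUPP) (hA : S_ASM) : S_MOV := by
  intro m Y _ _ _ _ _ cY y₁ hm hi hd hr y₂
  -- a homeomorphism with one exceptional point
  obtain ⟨b₀⟩ : Nonempty (Sp m) := ⟨⟨EuclideanSpace.single 0 1, by simp⟩⟩
  let g : Y → Sp m := fun y => (ste m b₀).symm (chartAt (E m) y₁ y)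
  have hg : LD m g y₁ :=
    LD.comp_fun (ste_symm_ld m b₀ _) (ld_chart' y₁ y₁ (mem_chart_source _ _))
  obtain ⟨G, x₀, hG⟩ := hA m Y (Sp m) {y₁} {g y₁} cY (ste m (g y₁)).symm g hm
    (singleton_nonempty _) hi hd hr (ste_symm_inj m _) (ste_symm_ld m _)
    (by rw [ste_symm_range]; rfl)
    (fun x hx => by rw [mem_singleton_iff.1 hx]; exact hg) (injOn_singleton _ _)
    (image_singleton)
  obtain ⟨D₀, hD₀, hD₀'⟩ := move_to hP hS cY y₁ hm hi hd hr x₀
  obtain ⟨D₂, hD₂, hD₂'⟩ := move_to hP hS cY y₁ hm hi hd hr y₂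
  let K : Diffeomorph (𝓡 m) (𝓡 m) Y Y ∞ := (dfm hD₂).trans (dfm hD₀).symm
  have hK : K y₂ = x₀ := by
    show (dfm hD₀).symm (dfm hD₂ y₂) = x₀
    rw [dfm_apply, hD₂', ← hD₀', ← dfm_apply hD₀, Diffeomorph.symm_apply_apply]
  refine ⟨K.toHomeomorph.trans G, fun y hy => ?_⟩
  have h1 : K y ≠ x₀ := fun h => hy (K.injective (h.trans hK.symm))
  exact LD.comp_fun (g := G) (f := K) (hG _ h1) (K.isLocalDiffeomorph y)

end Pool.Agent.L7h82.PS
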